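import Pool.Agent.Helper23.CC.Final
import Pool.Agent.Helper23.CC.GCurve
import Pool.Agent.Helper23.CC.Wei
import Pool.Agent.Helper46.CC.GA
import Pool.Agent.Helper46.CC.NORAT
import Pool.Agent.Helper46.CC.GRP

/-!
MP_c7af3c_ag, Q1 (Lang: groupless if and only if arithmetically hyperbolic): fibre products of
cyclic covers of complete intersections in projective space.

Let `K` be an algebraically closed field of characteristic `0` and let `X` be the closed subset
`w i ^ m i = F i (x)`, `i < r`, `G j (x) = 0`, `j < g`, of the weighted projective space with the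
coordinates `x 0, …, x n` of weight `1` and `w i` of weight `e i`. Here the `F i` and `G j` are
arbitrary forms of the degrees `m i * e i`, `2 ≤ m i`, and `d j`; no smoothness is assumed. Let
`S = ∑ (m i - 1) e i + ∑ (d j + 1)`; for smooth `X` the canonical class is `S - g - n - 1` times
the hyperplane class, so `X` is of general type for `S > n + 1 + g`.

* If `S ≤ 2 n - 2`, or `S = 2 n - 1` and `0 < r`, then `X` contains a rational curve.
* If moreover `S = 2 n` is allowed when `3` or `4` divides some `m i`, or the sum of the `e i` over
  the even `m i` is at least two, then `X` contains a curve of geometric genus at most one, and `X`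
  is neither groupless nor arithmetically hyperbolic.
* These bounds are optimal: let the coefficients of all the forms be algebraically independent over
  a field `k`. If `S ≥ 2 n` then `X` contains no rational curve, if `S ≥ 2 n + 1` then all morphisms
  from elliptic curves to `X` are constant, and if `S ≥ 2 n + 2` then `X` is arithmetically
  hyperbolic. So for generic `X` the conjecture is decided, with the exception of `S = 2 n + 1` and
  of the remaining cases of `S = 2 n - 1`, `S = 2 n`.

The curves lie over lines of prescribed contact type with the hypersurfaces `F i = 0`; the existence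
of such lines is proved for all forms (`Pool.Agent.Helper23.CC.full_clt`).

Proved with the help of the agents helper1, helper15, helper44, helper46, helper53, helper70,
helper72 and helper75.
-/

set_option autoImplicit false

namespace Pool.Agent.Results.MP_c7af3c_ag.LowDegreeCovers

open MvPolynomial Pool.Agent.W600.Alg Pool.Agent.Helper23.CC

theorem result {K : Type} [Field K] [IsAlgClosed K] [CharZero K] {n r g : ℕ} (hn : 1 ≤ n)
    -- the equations `w i ^ m i = F i (x)` and `G j (x) = 0`, with arbitrary forms
    {m e : Fin r → ℕ} (hm : ∀ i, 2 ≤ m i) (he : ∀ i, 0 < e i)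
    {F : Fin r → MvPolynomial (Fin (n + 1)) K} (hF : ∀ i, (F i).IsHomogeneous (m i * e i))
    {d : Fin g → ℕ} (hd : ∀ j, 1 ≤ d j)
    {G : Fin g → MvPolynomial (Fin (n + 1)) K} (hG : ∀ j, (G j).IsHomogeneous (d j))
    {S : ℕ} (hS : S = ∑ i, (m i - 1) * e i + ∑ j, (d j + 1)) :
    -- arbitrary forms: rational curves
    (S ≤ 2 * n - 1 → (S = 2 * n - 1 → 0 < r) → ¬ Ratless e (Pts m F G 1)) ∧
    -- arbitrary forms: curves of genus at most one
    (S ≤ 2 * n → (S = 2 * n - 1 → 0 < r) →
      (S = 2 * n → (∃ i, 3 ∣ m i ∨ 4 ∣ m i) ∨ 2 ≤ ∑ i with 2 ∣ m i, e i) →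
      ¬ Groupless e (Pts m F G 1) ∧ ¬ ArithHyp m e F G) ∧
    -- generic forms
    ∀ (k : Type) [Field k] [Algebra k K], Generic k K m e d F G →
      (2 * n ≤ S → Ratless e (Pts m F G 1)) ∧
      (2 * n + 1 ≤ S → Groupless e (Pts m F G 1)) ∧
      (2 * n + 2 ≤ S → ArithHyp m e F G) := by
  subst hS
  refine ⟨fun h1 h2 => Pool.Agent.Helper46.CC.ga full_patt K n r g hn m hm F e he hF G d hd hG h1 h2,
    fun h1 h2 h3 => full_fin K n r g hn m hm F e he hF G d hd hG h1 h3 h2,
    fun k _ _ hgen => ⟨fun h => ?_, fun h => ?_, fun h => ?_⟩⟩
  · exact Pool.Agent.Helper46.CC.norat gcurve k K n r g m e F G d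
      (fun i => by have := hm i; omega) hF hG hgen h
  · exact Pool.Agent.Helper46.CC.grp wei gcurve k K n r g m e F G d
      (fun i => by have := hm i; omega) hF hG hgen h
  · exact gah (k := k) (fun i => by have := hm i; omega) hF hG hgen h

end Pool.Agent.Results.MP_c7af3c_ag.LowDegreeCovers
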