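import Pool.Agent.Helper23.WC.Asm
import Pool.Agent.Helper23.WL.FINA
import Pool.Agent.Helper23.CC.Final
import Pool.Agent.Helper16.WL.D1
import Pool.Agent.Helper36.WL.NRMW
import Pool.Agent.Helper36.WL.REDW
import Pool.Agent.Helper38.WL.BIN
import Pool.Agent.Helper52.WL.FINR
import Pool.Agent.Helper52.WL.FINW
import Pool.Agent.Helper61.WL.HALL
import Pool.Agent.Helper81.WL.DESW
import Pool.Agent.Helper81.WL.GENW
import Pool.Agent.Helper95.WL.NBC
import Pool.Agent.Helper95.WL.SUB
import Pool.Agent.Helper95.WL.TRF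
import Pool.Agent.Helper95.WL.UNI

/-!
# Rational curves in weighted complete intersections, beyond the range of nonpositive canonical
divisor

`X` is the variety `H j = 0`, `j < s`, in the weighted projective space `P(1, …, 1, e 1, …, e r)`
with the coordinates `x 0, …, x n, w 1, …, w r`, where the `H j` are any weighted homogeneous
polynomials of degrees `D j` without common zeros with `x = 0`, that is, `X` is finite over its
image in `P^n`. No smoothness is assumed. If `∑ (D j + 1) ≤ ∑ (e i + 1) + 2 (n - 1)` then `X`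
contains a rational curve which is mapped isomorphically onto a line of `P^n`, although many of
these varieties are of general type; so `X` is neither groupless nor arithmetically hyperbolic.
-/

set_option autoImplicit false

namespace Pool.Agent.Results.MP_c7af3c_ag.WeightedIntersections

open MvPolynomial Pool.Agent.W600.Alg Pool.Agent.Helper23.CC Pool.Agent.Helper23.WC

theorem result {K : Type} [Field K] [IsAlgClosed K] [CharZero K] {n r s : ℕ} (hn : 1 ≤ n)
    (e : Fin r → ℕ) (he : ∀ i, 0 < e i) (D : Fin s → ℕ) (hD : ∀ j, 1 ≤ D j)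
    (H : Fin s → MvPolynomial (Fin (n + 1) ⊕ Fin r) K)
    (hH : ∀ j, IsWeightedHomogeneous (wt e) (H j) (D j)) (h0 : Fin0 H)
    (hS : ∑ j, (D j + 1) ≤ ∑ i, (e i + 1) + 2 * (n - 1)) :
    ¬ Ratless e (WPts H) ∧ ¬ Groupless e (WPts H) ∧ ¬ ArithHypW e H := by
  have hUNI := Pool.Agent.Helper95.WL.UNI.main Pool.Agent.Helper52.WL.FINW.main
  have hNBC := Pool.Agent.Helper95.WL.NBC.main Pool.Agent.Helper52.WL.FINW.main
  have hD1 := Pool.Agent.Helper16.WL.D1.main Pool.Agent.Helper52.WL.FINW.main
  have hBIN := Pool.Agent.Helper38.WL.main (crt Pool.Agent.Helper75.CC.chain)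
  have hGENW := Pool.Agent.Helper81.WL.GENW.main Pool.Agent.Helper52.WL.FINW.main hUNI hNBC hD1
    hBIN Pool.Agent.Helper70.CC.jac
  have hline : WLine K K e H := wlt hUNI hGENW Pool.Agent.Helper61.WL.HALL.main
    Pool.Agent.Helper95.WL.SUB.main (Pool.Agent.Helper36.WL.NRMW.main
      Pool.Agent.Helper95.WL.TRF.main) Pool.Agent.Helper36.WL.REDW.main
    Pool.Agent.Helper81.WL.DESW.main Pool.Agent.Helper23.CC.Helper53.place
    Pool.Agent.Helper23.CC.Helper53.norm hn he hD hH h0 hS
  obtain ⟨h1, h2⟩ := Pool.Agent.Helper52.WL.FINR.main K n r s e H hline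
  exact ⟨h1, h2, Pool.Agent.Helper23.WL.fina K n r s e H hline⟩

end Pool.Agent.Results.MP_c7af3c_ag.WeightedIntersections
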